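import Pool.Agent.W223.RD.C1
import Pool.Agent.W223.RD.C2
import Pool.Agent.W223.RD.C3
import Pool.Agent.W223.RD.C4
import Pool.Agent.W223.RD.C5
import Pool.Agent.W223.RD.C6
import Pool.Agent.W223.RD.C7
import Pool.Agent.W223.RD.C8

/-!
The radicals of the integers `n` (of any size) in the question are rare: at most
`C X exp(-(log X)^(1/3)/100)` integers `R ≤ X` are the product of the prime factors of an integer
`n > 1` such that every prime factor of `σ(n)` divides `2 n`. Second part: the same count for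
odd `n > 1` such that `n` and `σ(n)` have the same prime factors.
-/

namespace Pool.Agent.Results.MP_bd9ace_nt.RadicalsOfSolutions

theorem result :
    (∃ C : ℝ, ∀ X : ℝ, 1 ≤ X →
      (({R : ℕ | (R : ℝ) ≤ X ∧ ∃ n : ℕ, (1 < n ∧ ∀ q : ℕ, q.Prime →
          q ∣ ArithmeticFunction.sigma 1 n → q ∣ 2 * n) ∧
          ∏ p ∈ n.primeFactors, p = R}.ncard : ℕ) : ℝ) ≤
        C * X * Real.exp (-(Real.log X ^ ((1 : ℝ) / 3) / 100))) ∧
    (∃ C : ℝ, ∀ X : ℝ, 1 ≤ X →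
      (({R : ℕ | (R : ℝ) ≤ X ∧ ∃ n : ℕ, Odd n ∧ 1 < n ∧
          n.primeFactors = (∑ d ∈ n.divisors, d).primeFactors ∧
          ∏ p ∈ n.primeFactors, p = R}.ncard : ℕ) : ℝ) ≤
        C * X * Real.exp (-(Real.log X ^ ((1 : ℝ) / 3) / 100))) := by
  have h8 : Pool.Agent.W223.RD.StmtD8 :=
    Pool.Agent.W252.RD.tD8 Pool.Agent.W755.RD.tD1 Pool.Agent.W223.RD.N5.tD5
      Pool.Agent.W223.RD.N6.tD6
      (Pool.Agent.W223.RD.tD7 Pool.Agent.W320.RD.tD2 Pool.Agent.W970.RD.tD3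
        Pool.Agent.W977.RD.tD4)
  refine ⟨h8, ?_⟩
  obtain ⟨C, hC⟩ := h8
  refine ⟨C, fun X hX => le_trans ?_ (hC X hX)⟩
  have hfin : {R : ℕ | (R : ℝ) ≤ X ∧ ∃ n : ℕ, Pool.Agent.W223.RD.Closed n ∧
      ∏ p ∈ n.primeFactors, p = R}.Finite := by
    refine (Set.finite_Iic ⌊X⌋₊).subset ?_
    rintro R ⟨hR, -⟩
    exact Nat.le_floor hR
  have hsub : {R : ℕ | (R : ℝ) ≤ X ∧ ∃ n : ℕ, Odd n ∧ 1 < n ∧
      n.primeFactors = (∑ d ∈ n.divisors, d).primeFactors ∧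
      ∏ p ∈ n.primeFactors, p = R} ⊆ {R : ℕ | (R : ℝ) ≤ X ∧ ∃ n : ℕ,
      Pool.Agent.W223.RD.Closed n ∧ ∏ p ∈ n.primeFactors, p = R} := by
    rintro R ⟨hR, n, _, hn1, hP, rfl⟩
    refine ⟨hR, n, ⟨hn1, ?_⟩, rfl⟩
    intro q hq hdvd
    rw [ArithmeticFunction.sigma_one_apply] at hdvd
    have hs : ∑ d ∈ n.divisors, d ≠ 0 := by
      have h1 : n ≤ ∑ d ∈ n.divisors, d :=
        Finset.single_le_sum (f := fun d => d) (fun _ _ => Nat.zero_le _)
          (Nat.mem_divisors_self n (by omega))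
      omega
    have hmem : q ∈ n.primeFactors := by
      rw [hP]
      exact Nat.mem_primeFactors.2 ⟨hq, hdvd, hs⟩
    exact (Nat.dvd_of_mem_primeFactors hmem).mul_left 2
  exact_mod_cast Set.ncard_le_ncard hsub hfin

end Pool.Agent.Results.MP_bd9ace_nt.RadicalsOfSolutions
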